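import Pool.Agent.N783.PF.Loc
import Pool.Agent.N123.JM.Loc1
import Pool.Agent.N507.JM.Loc2
import Pool.Agent.N814.JM.Cpl
import Pool.Agent.N427.PJ.E1
import Pool.Agent.N787.PJ.Ext
import Pool.Agent.N195.PJ.E2
import Pool.Agent.N434.PJ.B1
import Pool.Agent.N769.PJ.Eq
import Pool.Agent.N498.PQ.Cpl
import Pool.Agent.N457.PQ.Sqt
import Pool.Agent.N891.PQ.TwA

/-!
# Project PF (helper783), part LOC (helper78): consequences of the local conditions for the twist
-/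

set_option autoImplicit false
set_option linter.all false

open Polynomial IsDedekindDomain Matrix NumberField WithZero
open scoped Classical

namespace Pool.Agent.N78.PF

open Pool.Agent.N874.PP (Ev Sq1 U0)
open Pool.Agent.N783.PQ (LocIm)
open Pool.Agent.N874.JM (LocF)
open Pool.Agent.N874.PM (Lies)
open Pool.Agent.N783.PF

theorem LOC1 : Pool.Agent.N874.JM.S_LOC1 :=
  Pool.Agent.N123.JM.loc1 Pool.Agent.N427.PJ.e1 Pool.Agent.N787.PJ.ext Pool.Agent.N814.JM.cpl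

theorem LOC2 : Pool.Agent.N874.JM.S_LOC2 :=
  Pool.Agent.N507.JM.loc2 (Pool.Agent.N195.PJ.E2.e2 Pool.Agent.N434.PJ.b1)
    Pool.Agent.N769.PJ.eq Pool.Agent.N787.PJ.ext Pool.Agent.N814.JM.cpl

section

variable {F L : Type} [Field F] [NumberField F] [Field L] [NumberField L] [Algebra F L]

theorem fF_scale {f : (𝓞 F)[X]} (hm : f.Monic) (D : ℕ) :
    fF (f.scaleRoots ((D : ℕ) : 𝓞 F)) = (fF f).scaleRoots ((D : ℕ) : F) := by
  unfold fF
  rw [map_scaleRoots]
  · simp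
  · rw [hm.leadingCoeff]
    simp

theorem eq_of_ov {𝔭 : Ideal (𝓞 F)} (hp : 𝔭.IsPrime) (h0 : 𝔭 ≠ ⊥)
    {𝔓 : HeightOneSpectrum (𝓞 L)} (hov : Ov 𝔭 𝔓) {w : HeightOneSpectrum (𝓞 F)}
    (hiff : ∀ a : 𝓞 F, a ∈ w.asIdeal ↔ algebraMap (𝓞 F) (𝓞 L) a ∈ 𝔓.asIdeal) :
    𝔭 = w.asIdeal := by
  have hmax : 𝔭.IsMaximal := hp.isMaximal h0
  exact hmax.eq_of_le w.isPrime.ne_top fun a ha => (hiff a).2 (hov a ha)

theorem val_one {w : HeightOneSpectrum (𝓞 F)} {a : 𝓞 F} (ha : a ∉ w.asIdeal) :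
    w.valuation F (a : F) = 1 := by
  refine le_antisymm (HeightOneSpectrum.valuation_le_one (K := F) w a) (not_lt.1 fun h => ha ?_)
  exact (HeightOneSpectrum.valuation_lt_one_iff_mem (K := F) w a).1 h

theorem two_cast : ((2 : 𝓞 F) : F) = 2 := map_ofNat (algebraMap (𝓞 F) F) 2

theorem int_theta {g : ℕ} {f : (𝓞 F)[X]} {θ : L} (hG : IsGen g f θ) : IsIntegral ℤ θ := by
  have h1 : IsIntegral (𝓞 F) θ := by
    refine ⟨f, hG.mon, ?_⟩
    have h2 := hG.root
    rw [fF, aeval_map_algebraMap] at h2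
    exact h2
  exact isIntegral_trans (R := ℤ) (A := 𝓞 F) θ h1

theorem val_theta {g : ℕ} {f : (𝓞 F)[X]} {θ : L} (hG : IsGen g f θ)
    (𝔓 : HeightOneSpectrum (𝓞 L)) : 𝔓.valuation L θ ≤ 1 := by
  have h1 := HeightOneSpectrum.valuation_le_one (K := L) 𝔓 (⟨θ, int_theta hG⟩ : 𝓞 L)
  exact h1

theorem val_der {g : ℕ} {f : (𝓞 F)[X]} {θ : L} (hG : IsGen g f θ)
    (𝔓 : HeightOneSpectrum (𝓞 L)) : 𝔓.valuation L (aeval θ (derivative (fF f))) ≤ 1 := by
  obtain ⟨θ', hθ'⟩ : ∃ θ' : 𝓞 L, algebraMap (𝓞 L) L θ' = θ := ⟨⟨θ, int_theta hG⟩, rfl⟩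
  have h1 := HeightOneSpectrum.valuation_le_one (K := L) 𝔓 (aeval θ' (derivative f))
  have h2 : algebraMap (𝓞 L) L (aeval θ' (derivative f)) =
      aeval θ (derivative (fF f)) := by
    rw [← aeval_algebraMap_apply, fF, derivative_map, aeval_map_algebraMap, hθ']
  rw [← h2]
  exact h1

theorem rd_eq {𝔞 𝔭 : Ideal (𝓞 F)} (h : 𝔞 ≤ 𝔭) {f f' : (𝓞 F)[X]} (hc : Cg 𝔞 f f') :
    rd 𝔭 f = rd 𝔭 f' := by
  ext j
  rw [rd, rd, coeff_map, coeff_map, Ideal.Quotient.eq]
  exact h (hc j)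

theorem sp_le {q : ℕ} {𝔭 : Ideal (𝓞 F)} (h : (q : 𝓞 F) ∈ 𝔭) : sp F q ≤ 𝔭 := by
  rw [sp, Ideal.span_singleton_le_iff_mem]
  exact h

theorem map_locF {E : Type} [Field E] [Algebra F E] [CharZero E] {g : ℕ} {f : (𝓞 F)[X]}
    (hm : f.Monic) (hd : f.natDegree = 2 * g + 1) {D : ℕ} (hD0 : D ≠ 0) (δ : E)
    (hδ : δ ^ 2 = (D : E)) (h : F[X])
    (H : LocIm E ((fF (f.scaleRoots ((D : ℕ) : 𝓞 F))).map (algebraMap F E))
      (h.map (algebraMap F E))) :
    LocIm E ((fF f).map (algebraMap F E)) ((h.comp (C ((D : ℕ) : F) * X)).map (algebraMap F E)) := by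
  have hδ0 : δ ≠ 0 := by
    intro h0
    rw [h0, zero_pow two_ne_zero] at hδ
    exact hD0 (by exact_mod_cast hδ.symm)
  have hmF : (fF f).Monic := hm.map _
  have h1 := Pool.Agent.N457.PQ.sqt E g ((fF f).map (algebraMap F E)) (h.map (algebraMap F E)) δ
    (hmF.map _) (by
      rw [hmF.natDegree_map, hm.natDegree_map, hd]) hδ0
  rw [hδ] at h1
  have e1 : (fF (f.scaleRoots ((D : ℕ) : 𝓞 F))).map (algebraMap F E) =
      ((fF f).map (algebraMap F E)).scaleRoots (D : E) := by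
    rw [fF_scale hm, map_scaleRoots]
    · simp
    · rw [hmF.leadingCoeff]
      simp
  rw [e1] at H
  have h2 := h1 H
  have e : (h.comp (C ((D : ℕ) : F) * X)).map (algebraMap F E) =
      (h.map (algebraMap F E)).comp (C (D : E) * X) := by
    rw [Polynomial.map_comp, Polynomial.map_mul, map_C, map_X]
    congr 3
    simp
  rw [e]
  exact h2

/-- Primes not dividing `2 D` at which `f'(θ)` is a unit. -/
theorem ev_unit {g : ℕ} {f : (𝓞 F)[X]} {θ : L} (hG : IsGen g f θ)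
    {w : HeightOneSpectrum (𝓞 F)} {𝔓 : HeightOneSpectrum (𝓞 L)}
    (hL : Lies (M := F) (Ω := L) w 𝔓) (h2 : (2 : 𝓞 F) ∉ w.asIdeal) {D : ℕ}
    (hD : (D : 𝓞 F) ∉ w.asIdeal) (h : F[X])
    (hder : 𝔓.valuation L (aeval θ (derivative (fF f))) = 1)
    (hloc : LocF (w.adicCompletion F) (fF (f.scaleRoots ((D : ℕ) : 𝓞 F))) h)
    (hne : aeval ((D : L) * θ) h ≠ 0) : Ev 𝔓 (aeval ((D : L) * θ) h) := by
  have v2 : w.valuation F 2 = 1 := by
    have := val_one h2
    rwa [two_cast] at this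
  have vD : w.valuation F (D : F) = 1 := by
    have := val_one hD
    simpa using this
  have e1 : (D : L) = algebraMap F L (D : F) := by simp
  rw [fF_scale hG.mon] at hloc
  rw [e1] at hne ⊢
  refine LOC1 F L (𝓞 F) (𝓞 L) w 𝔓 hL v2 (fF f) h (D : F) θ (hG.mon.map _) ?_ ?_ hG.root hder vD
    hloc hne
  · rw [hG.mon.natDegree_map, hG.deg]
    exact ⟨g, rfl⟩
  · intro i
    rw [coeff_map]
    exact HeightOneSpectrum.valuation_le_one (K := F) w _

theorem loc (h1 : S_INT) (h2 : S_PIN) (h3 : S_PAR) (h4 : S_PARQ) (h5 : S_RAM) (h6 : S_CSQ)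
    (h7 : S_EXQ) (h8 : S_LIE) : S_LOC := by
  intro g W F L _ _ _ _ _ f f₁ θ S J 𝔮 r P hg hG hsq hF hS hc1 hcq hJS h hne hN hloc hreal
  have hqp : ∀ q ∈ S, q.Prime := fun q hq => (hS q hq).1
  -- congruences modulo `𝔮 q`
  have hcQ : ∀ q ∈ S, Cg (𝔮 q) f (X * r q) := by
    intro q hq j
    obtain ⟨-, -, -, -, -, -, a2, -, -, -, -, -, -, a3, -⟩ := hS q hq
    have b1 := sp_le (F := F) a2 (hcq q hq j)
    have b2 := a3 j
    have := Ideal.add_mem _ b1 b2
    simpa using this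
  have hqne : ∀ q ∈ S, 𝔮 q ≠ ⊥ := by
    intro q hq h0
    obtain ⟨a1, -, -, -, -, -, a2, -⟩ := hS q hq
    rw [h0, Ideal.mem_bot] at a2
    exact a1.ne_zero (by exact_mod_cast a2)
  have hqpr : ∀ q ∈ S, (𝔮 q).IsPrime := by
    intro q hq
    obtain ⟨-, -, -, -, -, a1, -⟩ := hS q hq
    exact a1
  obtain ⟨D, hD⟩ : ∃ D : ℕ, D = Dp J := ⟨_, rfl⟩
  rw [← hD] at hne hN hloc hreal ⊢
  have hD0 : D ≠ 0 := by
    rw [hD, Dp, Finset.prod_ne_zero_iff]
    exact fun q hq => (hqp q (hJS hq)).ne_zero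
  have hD8 : D % 8 = 1 := by
    rw [hD]
    have : ∀ T : Finset ℕ, T ⊆ S → (∏ q ∈ T, q) % 8 = 1 := by
      intro T
      induction T using Finset.induction_on with
      | empty => intro _; rfl
      | insert a T ha ih =>
        intro hT
        rw [Finset.prod_insert ha, Nat.mul_mod, ih fun x hx => hT (Finset.mem_insert_of_mem hx),
          (hS a (hT (Finset.mem_insert_self _ _))).2.2.2.1]
    exact this J hJS
  refine ⟨?_, ?_, ?_, ?_⟩
  · -- even valuations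
    intro 𝔓 h𝔓
    obtain ⟨w, w1, w2, w3⟩ := h8 F L 𝔓
    have hL : Lies (M := F) (Ω := L) w 𝔓 := ⟨fun x => (w3 x).1, fun x => (w3 x).2⟩
    by_cases c2 : (2 : 𝓞 F) ∈ w.asIdeal
    · -- primes over two
      have hW : (W : 𝓞 F) ∈ w.asIdeal := by
        obtain ⟨k, hk⟩ := hF.two
        rw [hk]
        push_cast
        exact Ideal.mul_mem_right _ _ c2
      have e1 := rd_eq (sp_le hW) hc1
      exact h2 g F L f θ hG hsq w.asIdeal w.isPrime w.ne_bot
        (by rw [e1]; exact hF.irr _ w.isPrime c2) _ hne hN 𝔓 w1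
    · by_cases cq : ∃ q ∈ J, (q : 𝓞 F) ∈ w.asIdeal
      · obtain ⟨q, hq, hqw⟩ := cq
        have hqS := hJS hq
        by_cases cw : w.asIdeal = 𝔮 q
        · have o1 : Ov (𝔮 q) 𝔓 := by
            rw [← cw]
            exact w1
          have v1 : 𝔓.valuation L θ < 1 := lt_of_le_of_ne (val_theta hG 𝔓) (h𝔓 q hq o1)
          exact h4 g W F L f θ S 𝔮 r P hg hG hsq hS q hqS (hcQ q hqS) _ hne hN 𝔓 o1 v1
        · have e1 := rd_eq (sp_le hqw) (hcq q hqS)
          obtain ⟨-, -, -, -, -, -, -, -, -, -, -, -, -, -, a1⟩ := hS q hqS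
          exact h2 g F L f θ hG hsq w.asIdeal w.isPrime w.ne_bot
            (by rw [e1]; exact a1 _ w.isPrime hqw cw) _ hne hN 𝔓 w1
      · -- primes not dividing `2 D`
        have hDw : (D : 𝓞 F) ∉ w.asIdeal := by
          intro hd
          rw [hD, Dp, Nat.cast_prod] at hd
          haveI := w.isPrime
          obtain ⟨q, hq, hqw⟩ := (Ideal.IsPrime.prod_mem_iff).1 hd
          exact cq ⟨q, hq, hqw⟩
        by_cases cu : 𝔓.valuation L (aeval θ (derivative (fF f))) = 1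
        · exact ev_unit hG hL c2 hDw h cu (hloc w) hne
        · have v1 : 𝔓.valuation L (aeval θ (derivative (fF f))) < 1 :=
            lt_of_le_of_ne (val_der hG 𝔓) cu
          obtain ⟨⟨c, hc⟩, hother⟩ := h5 g F L f θ hG hsq w.asIdeal w.isPrime w.ne_bot 𝔓 w1 v1
          refine h3 g F L f θ hG hsq w.asIdeal w.isPrime w.ne_bot 𝔓 c w1 hc _ hne hN ?_
          intro 𝔓' o' n'
          obtain ⟨w', u1, u2, u3⟩ := h8 F L 𝔓'
          have ew : w = w' := by
            ext1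
            exact eq_of_ov w.isPrime w.ne_bot o' u2
          have hL' : Lies (M := F) (Ω := L) w 𝔓' := by
            rw [ew]
            exact ⟨fun x => (u3 x).1, fun x => (u3 x).2⟩
          exact ev_unit hG hL' c2 hDw h (hother 𝔓' o' n') (hloc w) hne
  · -- the primes in `J`
    intro q hq 𝔓 o1 v1
    have hqS := hJS hq
    obtain ⟨w, w1, w2, w3⟩ := h8 F L 𝔓
    have hL : Lies (M := F) (Ω := L) w 𝔓 := ⟨fun x => (w3 x).1, fun x => (w3 x).2⟩
    have ew : 𝔮 q = w.asIdeal := eq_of_ov (hqpr q hqS) (hqne q hqS) o1 w2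
    obtain ⟨a1, a2, a3, a4, a5, a6, a7, a8, a9, a10, a11, a12, a13, a14, a15⟩ := hS q hqS
    haveI : Finite (𝓞 F ⧸ w.asIdeal) := Ideal.finiteQuotientOfFreeOfNeBot _ w.ne_bot
    haveI : Finite (𝓞 L ⧸ 𝔓.asIdeal) := Ideal.finiteQuotientOfFreeOfNeBot _ 𝔓.ne_bot
    have h2w : (2 : 𝓞 F) ∉ 𝔮 q := by
      intro hm
      have h9 : ((q : 𝓞 F)) - 2 * ((q / 2 : ℕ) : 𝓞 F) = 1 := by
        have h10 : q = 2 * (q / 2) + 1 := by omega
        have h11 : (q : 𝓞 F) = 2 * ((q / 2 : ℕ) : 𝓞 F) + 1 := by exact_mod_cast congrArg (Nat.cast (R := 𝓞 F)) h10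
        rw [h11]
        ring
      apply a6.ne_top
      rw [Ideal.eq_top_iff_one, ← h9]
      exact Ideal.sub_mem _ a7 (Ideal.mul_mem_right _ _ hm)
    have nat_mem : ∀ p : ℕ, p.Prime → (p : 𝓞 F) ∈ 𝔮 q → p = q := by
      intro p hp hpm
      by_contra hpq
      have hco : Nat.Coprime p q := (Nat.coprime_primes hp a1).2 hpq
      obtain ⟨u, v, huv⟩ := (Nat.isCoprime_iff_coprime.2 hco)
      apply a6.ne_top
      rw [Ideal.eq_top_iff_one]
      have h9 : (1 : 𝓞 F) = (u : 𝓞 F) * (p : 𝓞 F) + (v : 𝓞 F) * (q : 𝓞 F) := by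
        have := congrArg (Int.cast (R := 𝓞 F)) huv
        push_cast at this
        exact this.symm
      rw [h9]
      exact Ideal.add_mem _ (Ideal.mul_mem_left _ _ hpm) (Ideal.mul_mem_left _ _ a7)
    have a10' : Irreducible (rd w.asIdeal (r q)) := ew ▸ a10
    obtain ⟨D', hD'⟩ : ∃ D' : ℕ, D' = ∏ p ∈ J.erase q, p := ⟨_, rfl⟩
    have hDD : D = q * D' := by
      rw [hD, hD']
      exact (Finset.mul_prod_erase J (fun P => P) hq).symm
    have hD'm : (D' : 𝓞 F) ∉ 𝔮 q := by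
      intro hd
      rw [hD', Nat.cast_prod] at hd
      haveI := a6
      obtain ⟨p, hp, hpm⟩ := (Ideal.IsPrime.prod_mem_iff).1 hd
      have hp' := Finset.mem_erase.1 hp
      exact hp'.1 (nat_mem p (hqp p (hJS hp'.2)) hpm)
    have v2 : w.valuation F 2 = 1 := by
      have := val_one (w := w) (a := 2) (by rw [← ew]; exact h2w)
      rwa [two_cast] at this
    have vD' : w.valuation F (D' : F) = 1 := by
      have := val_one (w := w) (a := (D' : 𝓞 F)) (by rw [← ew]; exact hD'm)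
      simpa using this
    obtain ⟨𝔓₁, 𝔓₂, e1, e2, e3, e4, e5, e6, e7⟩ :=
      h7 g W F L f θ S 𝔮 r P hg hG hsq hS q hqS (hcQ q hqS)
    have vq : 𝔓.valuation L (algebraMap F L (q : F)) = WithZero.exp (-1 : ℤ) := by
      rw [map_natCast]
      rcases e7 𝔓 o1 with rfl | rfl
      · exact e5
      · exact e6
    obtain ⟨c1, -, -, -⟩ := h6 g W F L f θ S 𝔮 r P hg hG hsq hS q hqS (hcQ q hqS) 𝔓 o1 v1
    have s1 : Sq1 𝔓 (-1 : L) := by
      have := c1 (-1) (by
        intro hm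
        apply a6.ne_top
        rw [Ideal.eq_top_iff_one]
        have := Ideal.neg_mem_iff _ |>.2 hm
        simpa using this)
      simpa using this
    have s2 : Sq1 𝔓 (algebraMap F L (D' : F)) := by
      have := c1 (D' : 𝓞 F) hD'm
      simpa using this
    have hl := hloc w
    rw [fF_scale hG.mon, hDD, Nat.cast_mul] at hl
    have e8 : (D : L) = algebraMap F L ((q : F) * (D' : F)) := by
      rw [hDD]
      simp
    have e9 : (q : L) = algebraMap F L (q : F) := by simp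
    rw [e8] at hne ⊢
    rw [e9]
    refine LOC2 F L (𝓞 F) (𝓞 L) w 𝔓 hL v2 g (fF f) h (r q) (q : F) (D' : F) θ hg (hG.mon.map _)
      ?_ a8 a9 ?_ ?_ hG.root v1 vq vD' s1 s2 hl hne
    · rw [hG.mon.natDegree_map, hG.deg]
    · exact a10'
    · intro j
      rw [coeff_map, ← map_sub]
      refine (HeightOneSpectrum.valuation_lt_one_iff_mem (K := F) w _).2 ?_
      rw [← ew]
      exact hcQ q hqS j
  · -- the primes over two
    intro w hw
    haveI : Fact (Nat.Prime 2) := ⟨Nat.prime_two⟩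
    obtain ⟨δ, hδ⟩ := Pool.Agent.N891.PQ.sq_two D hD8
    obtain ⟨ι, hι, -, -⟩ := Pool.Agent.N498.PQ.cpl F 2 w (by
      change ((2 : ℕ) : 𝓞 F) ∈ w.asIdeal
      exact_mod_cast hw)
    haveI : CharZero (w.adicCompletion F) :=
      charZero_of_injective_algebraMap (algebraMap F (w.adicCompletion F)).injective
    exact map_locF hG.mon hG.deg hD0 (ι δ) (by rw [← map_pow, hδ, map_natCast]) h (hloc w)
  · -- the real places
    intro σ
    letI : Algebra F ℝ := σ.toAlgebra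
    exact map_locF (E := ℝ) hG.mon hG.deg hD0 (Real.sqrt D) (Real.sq_sqrt (Nat.cast_nonneg D)) h
      (hreal σ)

end

end Pool.Agent.N78.PF
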